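import Mathlib
import Pool.Agent.Lib.MP_acbfbf_co.Defs
import Pool.Agent.Lib.MP_acbfbf_co.Main

/-!
The coefficientwise inequality between the two `q`-series holds for every positive integer `L`.
-/

set_option autoImplicit false

open PowerSeries Pool.Agent.Lib.MP_acbfbf_co

/-- For every `L ≥ 1` and every `n`, the coefficient of `q ^ n` in
`q [L-2 choose 2]_q (-q^3; q)_(L-4)` is at most that in
`(q; q^2)_L⁻¹ ((1 - q^(2L-2)) / (1 - q^2) + q^3 [L-2 choose 2]_(q^2))`. -/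
theorem Pool.Agent.Results.MP_acbfbf_co.Inequality.result :
    ∀ L : ℕ, 1 ≤ L → ∀ n : ℕ,
      coeff n (X * gauss (X : ℚ⟦X⟧) (L - 2) 2 * qPoch (-X ^ 3) X (L - 4)) ≤
        coeff n ((qPoch (X : ℚ⟦X⟧) (X ^ 2) L)⁻¹ *
          ((1 - X ^ (2 * L - 2)) * (1 - X ^ 2)⁻¹ + X ^ 3 * gauss (X ^ 2) (L - 2) 2)) := by
  intro L hL n
  have h := main L hL n
  rw [map_sub] at h
  exact sub_nonneg.mp h
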